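import Pool.Agent.Helper794_NC.Main

set_option autoImplicit false

namespace Pool.Agent.Results.MP_5de1e7_al.NilpotentByAbelian

/-- A group with the normalizer condition that has a torsion-free nilpotent normal subgroup `N`
with abelian quotient `G / N` is hypercentral: every proper normal subgroup `M` has an element `g`
outside `M` that is central modulo `M`. -/
theorem result :
    ∀ (G : Type*) [Group G],
      NormalizerCondition G →
      ∀ N : Subgroup G, N.Normal → Group.IsNilpotent N →
        (∀ g : G, g ∈ N → g ≠ 1 → ¬ IsOfFinOrder g) →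
        (∀ x y : G, x * y * x⁻¹ * y⁻¹ ∈ N) →
        ∀ M : Subgroup G, M.Normal → M ≠ ⊤ →
          ∃ g : G, g ∉ M ∧ ∀ x : G, x * g * x⁻¹ * g⁻¹ ∈ M := by
  intro G _ hG N hN hnil htf hcomm M hM hM'
  refine Pool.Agent.Helper794NC.main hG N hnil ?_ hcomm M hM hM'
  intro n a ha hn h
  by_contra hne
  exact htf a ha hne (isOfFinOrder_iff_pow_eq_one.2 ⟨n, hn, h⟩)

end Pool.Agent.Results.MP_5de1e7_al.NilpotentByAbelian
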